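import Pool.Agent.Run7.h100.UN.Iface

/-!
FIN: two iterates of a rational self-map of the projective line which are different agree only at
finitely many points.
-/

set_option autoImplicit false

namespace Run7.h109.UN

open Polynomial
open scoped OnePoint
open Run7.h100.UN

section

variable {R S : Type*} [CommRing R] [CommRing S]

lemma lft_map (f : R →+* S) (a b : ℕ → R) (d : ℕ) (z : R × R) :
    lft (fun i => f (a i)) (fun i => f (b i)) d (f z.1, f z.2) =
      (f (lft a b d z).1, f (lft a b d z).2) := by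
  simp [lft, map_sum]

lemma lft_iter (f : R →+* S) (a b : ℕ → R) (d : ℕ) (n : ℕ) : ∀ z : R × R,
    (lft (fun i => f (a i)) (fun i => f (b i)) d)^[n] (f z.1, f z.2) =
      (f ((lft a b d)^[n] z).1, f ((lft a b d)^[n] z).2) := by
  induction n with
  | zero => intro z; rfl
  | succ n ih =>
    intro z
    rw [Function.iterate_succ_apply, Function.iterate_succ_apply, lft_map, ih]

end

/-- iterate over the polynomial ring -/
noncomputable def itp (P Q : Qb[X]) (d : ℕ) (n : ℕ) (z : Qb[X] × Qb[X]) : Qb[X] × Qb[X] :=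
  (lft (fun i => C (P.coeff i)) (fun i => C (Q.coeff i)) d)^[n] z

lemma ev_itp (P Q : Qb[X]) (d n : ℕ) (z : Qb[X] × Qb[X]) (x : Qb) :
    (lft P.coeff Q.coeff d)^[n] (z.1.eval x, z.2.eval x) =
      ((itp P Q d n z).1.eval x, (itp P Q d n z).2.eval x) := by
  have h := lft_iter (evalRingHom x) (fun i => C (P.coeff i)) (fun i => C (Q.coeff i)) d n z
  simp only [coe_evalRingHom, eval_C] at h
  exact h

/-- the determinant of two iterates -/
noncomputable def dt (P Q : Qb[X]) (d n m : ℕ) (z : Qb[X] × Qb[X]) : Qb[X] :=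
  (itp P Q d n z).1 * (itp P Q d m z).2 - (itp P Q d n z).2 * (itp P Q d m z).1

lemma pt_eq {z w : Qb × Qb} (hz : z ≠ 0) (hw : w ≠ 0) : pt z = pt w ↔ z.1 * w.2 = z.2 * w.1 := by
  obtain ⟨a, b⟩ := z
  obtain ⟨a', b'⟩ := w
  by_cases h1 : b = 0
  · have ha : a ≠ 0 := by
      rintro rfl
      exact hz (by rw [h1]; rfl)
    by_cases h2 : b' = 0
    · simp [pt, h1, h2]
    · simp [pt, h1, h2, ha]
  · by_cases h2 : b' = 0
    · have ha : a' ≠ 0 := by
        rintro rfl
        exact hw (by rw [h2]; rfl)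
      simp [pt, h1, h2, ha]
    · simp only [pt, h1, h2, if_false, OnePoint.coe_eq_coe]
      rw [div_eq_div_iff h1 h2, mul_comm a' b]

lemma iter_pt {P Q : Qb[X]} {d : ℕ}
    (h : ∀ z : Qb × Qb, z ≠ 0 → lft P.coeff Q.coeff d z ≠ 0 ∧
      ratm P Q d (pt z) = pt (lft P.coeff Q.coeff d z)) (n : ℕ) : ∀ z : Qb × Qb, z ≠ 0 →
    (lft P.coeff Q.coeff d)^[n] z ≠ 0 ∧
      (ratm P Q d)^[n] (pt z) = pt ((lft P.coeff Q.coeff d)^[n] z) := by
  induction n with
  | zero => intro z hz; exact ⟨hz, rfl⟩
  | succ n ih =>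
    intro z hz
    rw [Function.iterate_succ_apply, Function.iterate_succ_apply, (h z hz).2]
    exact ih _ (h z hz).1

theorem t_FIN : S_PT → S_FIN := by
  classical
  intro hPT P Q d hc hd n m hex
  have hpt := iter_pt (hPT P Q d hc hd)
  have key : ∀ (Z : Qb[X] × Qb[X]) (x : Qb), (Z.1.eval x, Z.2.eval x) ≠ 0 →
      ((ratm P Q d)^[n] (pt (Z.1.eval x, Z.2.eval x)) =
        (ratm P Q d)^[m] (pt (Z.1.eval x, Z.2.eval x)) ↔ (dt P Q d n m Z).eval x = 0) := by
    intro Z x hx
    rw [(hpt n _ hx).2, (hpt m _ hx).2, pt_eq (hpt n _ hx).1 (hpt m _ hx).1, ev_itp, ev_itp]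
    simp only [dt, eval_sub, eval_mul, sub_eq_zero]
  have hfin : ∀ x : Qb, (ratm P Q d)^[n] (x : OnePoint Qb) = (ratm P Q d)^[m] (x : OnePoint Qb) ↔
      (dt P Q d n m (X, 1)).eval x = 0 := by
    intro x
    have h1 := key (X, 1) x (by simp)
    have h2 : pt ((X : Qb[X]).eval x, (1 : Qb[X]).eval x) = (x : OnePoint Qb) := by
      simp [pt]
    rw [h2] at h1
    exact h1
  have hinv : ∀ y : Qb, (ratm P Q d)^[n] (pt (1, y)) = (ratm P Q d)^[m] (pt (1, y)) ↔
      (dt P Q d n m (1, X)).eval y = 0 := by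
    intro y
    have h1 := key (1, X) y (by simp)
    have h2 : ((1 : Qb[X]).eval y, (X : Qb[X]).eval y) = ((1 : Qb), y) := by simp
    rw [h2] at h1
    exact h1
  by_cases hD : dt P Q d n m (X, 1) = 0
  · exfalso
    have hE : dt P Q d n m (1, X) = 0 := by
      by_contra hE
      have hsub : ∀ y : Qb, y ≠ 0 → y ∈ (dt P Q d n m (1, X)).roots.toFinset := by
        intro y hy
        rw [Multiset.mem_toFinset, mem_roots hE, IsRoot.def, ← hinv y]
        have h3 : pt ((1 : Qb), y) = ((1 / y : Qb) : OnePoint Qb) := by simp [pt, hy]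
        rw [h3, hfin, hD, eval_zero]
      have hfin2 : (Set.univ : Set Qb).Finite := by
        refine ((Finset.finite_toSet (insert 0 (dt P Q d n m (1, X)).roots.toFinset))).subset ?_
        intro y _
        by_cases hy : y = 0
        · simp [hy]
        · exact Finset.mem_coe.mpr (Finset.mem_insert_of_mem (hsub y hy))
      exact Set.infinite_univ hfin2
    obtain ⟨z, hz⟩ := hex
    apply hz
    induction z using OnePoint.rec with
    | infty =>
      have h4 : pt ((1 : Qb), 0) = (∞ : OnePoint Qb) := by simp [pt]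
      rw [← h4, hinv, hE, eval_zero]
    | coe x => rw [hfin, hD, eval_zero]
  · refine ((Finset.finite_toSet ((dt P Q d n m (X, 1)).roots.toFinset.image
      (fun x : Qb => (x : OnePoint Qb)) ∪ {∞}))).subset ?_
    intro z hz
    induction z using OnePoint.rec with
    | infty => simp
    | coe x =>
      have h5 := (hfin x).mp hz
      rw [Finset.mem_coe, Finset.mem_union]
      left
      rw [Finset.mem_image]
      refine ⟨x, ?_, rfl⟩
      rw [Multiset.mem_toFinset, mem_roots hD]
      exact h5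

end Run7.h109.UN
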